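import Pool.Agent.R684.VG.Stm

set_option autoImplicit false

/-!
# Derivations for groups of given deficiency (piece ZD of project GP)
-/

namespace Pool.Agent.R690.GPZD

open Pool.Agent.R684.VG

def S_ZD : Prop := ∀ (X : Type) [Fintype X] (rels : Finset (FreeGroup X))
  (H : Subgroup (PresentedGroup (rels : Set (FreeGroup X)))) [H.FiniteIndex],
  Fintype.card X * H.index ≤
    Module.finrank ℂ (Pool.Agent.R684.VG.Zp (PresentedGroup (rels : Set (FreeGroup X))) H) + rels.card * H.index

section gen

variable {X : Type} {rels : Set (FreeGroup X)} (H : Subgroup (PresentedGroup rels))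

/-- the permutation module -/
abbrev Mm := (PresentedGroup rels ⧸ H) → ℂ

/-- the action on functions -/
def act (g : PresentedGroup rels) (m : Mm H) : Mm H := fun x => m (g⁻¹ • x)

lemma act_apply (g : PresentedGroup rels) (m : Mm H) (x : PresentedGroup rels ⧸ H) :
    act H g m x = m (g⁻¹ • x) := rfl

lemma act_mul (g h : PresentedGroup rels) (m : Mm H) : act H (g * h) m = act H g (act H h m) := by
  funext x
  rw [act_apply, act_apply, act_apply, mul_inv_rev, mul_smul]

lemma act_one (m : Mm H) : act H 1 m = m := by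
  funext x
  rw [act_apply, inv_one, one_smul]

lemma act_inv_act (g : PresentedGroup rels) (m : Mm H) : act H g⁻¹ (act H g m) = m := by
  rw [← act_mul, inv_mul_cancel, act_one]

lemma act_act_inv (g : PresentedGroup rels) (m : Mm H) : act H g (act H g⁻¹ m) = m := by
  rw [← act_mul, mul_inv_cancel, act_one]

lemma act_add (g : PresentedGroup rels) (m n : Mm H) :
    act H g (m + n) = act H g m + act H g n := rfl
lemma act_sub (g : PresentedGroup rels) (m n : Mm H) :
    act H g (m - n) = act H g m - act H g n := rfl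
lemma act_smul (g : PresentedGroup rels) (a : ℂ) (m : Mm H) :
    act H g (a • m) = a • act H g m := rfl
lemma act_zero (g : PresentedGroup rels) : act H g 0 = 0 := rfl

/-- affine permutation -/
def A1 (φ : Mm H) (g : PresentedGroup rels) : Equiv.Perm (Mm H) where
  toFun m := φ + act H g m
  invFun m := act H g⁻¹ (m - φ)
  left_inv m := by
    show act H g⁻¹ (φ + act H g m - φ) = m
    rw [add_sub_cancel_left, act_inv_act]
  right_inv m := by
    show φ + act H g (act H g⁻¹ (m - φ)) = m
    rw [act_act_inv, add_sub_cancel]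

/-- the affine action of the free group -/
def Aff (φ : X → Mm H) : FreeGroup X →* Equiv.Perm (Mm H) :=
  FreeGroup.lift (fun x => A1 H (φ x) (PresentedGroup.of x))

lemma Aff_of (φ : X → Mm H) (x : X) (m : Mm H) :
    Aff H φ (FreeGroup.of x) m = φ x + act H (PresentedGroup.of x) m := by
  unfold Aff
  rw [FreeGroup.lift_apply_of]
  rfl

/-- the projection -/
abbrev pr : FreeGroup X →* PresentedGroup rels := PresentedGroup.mk rels

lemma Aff_inv (φ : X → Mm H) (g : FreeGroup X)
    (hg : ∀ m, Aff H φ g m = Aff H φ g 0 + act H (pr g) m) (m : Mm H) :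
    Aff H φ g⁻¹ m = act H (pr g)⁻¹ (m - Aff H φ g 0) := by
  have h2 : Aff H φ g (act H (pr g)⁻¹ (m - Aff H φ g 0)) = m := by
    rw [hg, act_act_inv, add_sub_cancel]
  rw [map_inv, Equiv.Perm.inv_eq_iff_eq]
  exact h2.symm

lemma Aff_eq (φ : X → Mm H) (g : FreeGroup X) :
    ∀ m, Aff H φ g m = Aff H φ g 0 + act H (pr g) m := by
  have hinv : ∀ g : FreeGroup X, (∀ m, Aff H φ g m = Aff H φ g 0 + act H (pr g) m) →
      ∀ m, Aff H φ g⁻¹ m = Aff H φ g⁻¹ 0 + act H (pr g⁻¹) m := by
    intro g hg m
    rw [Aff_inv H φ g hg m, Aff_inv H φ g hg 0, act_sub, act_sub, act_zero, zero_sub, map_inv]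
    abel
  induction g using FreeGroup.induction_on with
  | C1 => intro m; rw [map_one, map_one, act_one]; simp
  | of x =>
    intro m
    have e1 := Aff_of H φ x m
    have e2 := Aff_of H φ x 0
    rw [act_zero, add_zero] at e2
    exact e1.trans (by rw [← e2]; rfl)
  | inv_of x h => exact hinv _ h
  | mul g h hg hh =>
    intro m
    rw [map_mul, map_mul, Equiv.Perm.mul_apply, Equiv.Perm.mul_apply, hg,
      hg (Aff H φ h 0), hh m, act_add, act_mul, add_assoc]

lemma Aff_mul (φ : X → Mm H) (g h : FreeGroup X) :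
    Aff H φ (g * h) 0 = Aff H φ g 0 + act H (pr g) (Aff H φ h 0) := by
  rw [map_mul, Equiv.Perm.mul_apply, Aff_eq]

lemma Aff_inv0 (φ : X → Mm H) (g : FreeGroup X) :
    Aff H φ g⁻¹ 0 = - act H (pr g)⁻¹ (Aff H φ g 0) := by
  rw [Aff_inv H φ g (Aff_eq H φ g), zero_sub]
  rfl

lemma Aff_add (φ ψ : X → Mm H) (g : FreeGroup X) :
    Aff H (φ + ψ) g 0 = Aff H φ g 0 + Aff H ψ g 0 := by
  induction g using FreeGroup.induction_on with
  | C1 => rw [map_one, map_one, map_one]; simp
  | of x =>
    have e1 := Aff_of H (φ + ψ) x 0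
    have e2 := Aff_of H φ x 0
    have e3 := Aff_of H ψ x 0
    rw [act_zero, add_zero] at e1 e2 e3
    exact e1.trans (by rw [e2, e3]; rfl)
  | inv_of x h =>
    rw [Aff_inv0, Aff_inv0, Aff_inv0, h, act_add]
    abel
  | mul g h hg hh =>
    rw [Aff_mul, Aff_mul, Aff_mul, hg, hh, act_add]
    abel

lemma Aff_smul (a : ℂ) (φ : X → Mm H) (g : FreeGroup X) :
    Aff H (a • φ) g 0 = a • Aff H φ g 0 := by
  induction g using FreeGroup.induction_on with
  | C1 => rw [map_one, map_one]; simp
  | of x =>
    have e1 := Aff_of H (a • φ) x 0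
    have e2 := Aff_of H φ x 0
    rw [act_zero, add_zero] at e1 e2
    exact e1.trans (by rw [e2]; rfl)
  | inv_of x h =>
    rw [Aff_inv0, Aff_inv0, h, act_smul, smul_neg]
  | mul g h hg hh =>
    rw [Aff_mul, Aff_mul, hg, hh, act_smul, smul_add]

/-- evaluation at the relators -/
def DR (R : Type) (ι : R → FreeGroup X) : (X → Mm H) →ₗ[ℂ] (R → Mm H) where
  toFun φ := fun r => Aff H φ (ι r) 0
  map_add' φ ψ := by funext r; exact Aff_add H φ ψ _
  map_smul' a φ := by funext r; exact Aff_smul H a φ _

/-- evaluation on the generators -/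
def ev : Zp (PresentedGroup rels) H →ₗ[ℂ] (X → Mm H) where
  toFun c := fun x => c.1 (PresentedGroup.of x)
  map_add' _ _ := rfl
  map_smul' _ _ := rfl

lemma ev_inj : Function.Injective (ev H) := by
  rw [injective_iff_map_eq_zero]
  intro c hc
  have h0 : c.1 1 = 0 := by
    funext x
    have := c.2 1 1 x
    rw [mul_one, inv_one, one_smul] at this
    exact left_eq_add.mp this
  have hinv : ∀ g : PresentedGroup rels, c.1 g = 0 → c.1 g⁻¹ = 0 := by
    intro g hg
    funext x
    have := c.2 g⁻¹ g x
    rw [inv_mul_cancel, h0, hg] at this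
    simp only [Pi.zero_apply, add_zero] at this
    exact this.symm
  have hw : ∀ w : FreeGroup X, c.1 (pr w) = 0 := by
    intro w
    induction w using FreeGroup.induction_on with
    | C1 => rw [map_one]; exact h0
    | of x => exact congrFun hc x
    | inv_of x h => rw [map_inv]; exact hinv _ h
    | mul g h hg hh =>
      funext x
      have := c.2 (pr g) (pr h) x
      rw [hg, hh] at this
      rw [map_mul]
      simpa using this
  apply Subtype.ext
  funext g
  obtain ⟨w, rfl⟩ := PresentedGroup.mk_surjective rels g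
  exact hw w

lemma kills (φ : X → Mm H) (hφ : ∀ r ∈ rels, Aff H φ r 0 = 0) : ∀ r ∈ rels, Aff H φ r = 1 := by
  intro r hr
  apply Equiv.ext
  intro m
  rw [Aff_eq, hφ r hr, show pr r = (1 : PresentedGroup rels) from PresentedGroup.one_of_mem hr,
    act_one, zero_add]
  rfl

/-- values only depend on the class -/
lemma Aff_congr (φ : X → Mm H) (hφ : ∀ r ∈ rels, Aff H φ r 0 = 0) (w w' : FreeGroup X)
    (h : (pr w : PresentedGroup rels) = pr w') : Aff H φ w = Aff H φ w' := by
  have h1 := PresentedGroup.toGroup (f := fun x => A1 H (φ x) (PresentedGroup.of x))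
    (rels := rels) (kills H φ hφ)
  have h2 : ∀ w, (PresentedGroup.toGroup (f := fun x => A1 H (φ x) (PresentedGroup.of x))
    (rels := rels) (kills H φ hφ)) (pr w) = Aff H φ w := fun w => rfl
  rw [← h2 w, ← h2 w', h]

end gen

theorem t_ZD : S_ZD := by
  intro X _ rels H _
  classical
  have : Finite (PresentedGroup (rels : Set (FreeGroup X)) ⧸ H) := inferInstance
  have : Fintype (PresentedGroup (rels : Set (FreeGroup X)) ⧸ H) := Fintype.ofFinite _
  let D := DR H rels (fun r => r.1)
  have hker : ∀ φ ∈ LinearMap.ker D, ∀ r ∈ (rels : Set (FreeGroup X)), Aff H φ r 0 = 0 := by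
    intro φ hφ r hr
    exact congrFun (LinearMap.mem_ker.mp hφ) ⟨r, hr⟩
  let s : PresentedGroup (rels : Set (FreeGroup X)) → FreeGroup X :=
    Function.surjInv (PresentedGroup.mk_surjective (rels : Set (FreeGroup X)))
  have hs : ∀ g, (pr (s g) : PresentedGroup (rels : Set (FreeGroup X))) = g :=
    Function.surjInv_eq _
  let F : LinearMap.ker D →ₗ[ℂ] Zp (PresentedGroup (rels : Set (FreeGroup X))) H :=
    { toFun := fun φ => ⟨fun g => Aff H φ.1 (s g) 0, by
        intro g h x
        have h1 : Aff H φ.1 (s (g * h)) = Aff H φ.1 (s g * s h) := by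
          apply Aff_congr H φ.1 (hker φ.1 φ.2)
          rw [hs, map_mul, hs, hs]
        show Aff H φ.1 (s (g * h)) 0 x = _
        rw [h1, Aff_mul, hs]
        rfl⟩
      map_add' := by
        intro φ ψ
        apply Subtype.ext
        funext g
        exact Aff_add H φ.1 ψ.1 _
      map_smul' := by
        intro a φ
        apply Subtype.ext
        funext g
        exact Aff_smul H a φ.1 _ }
  have hF : Function.Injective F := by
    rw [injective_iff_map_eq_zero]
    intro φ hφ
    apply Subtype.ext
    funext x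
    have h1 : Aff H φ.1 (s (PresentedGroup.of x)) 0 = 0 :=
      congrFun (congrArg Subtype.val hφ) (PresentedGroup.of x)
    have h2 : Aff H φ.1 (s (PresentedGroup.of x)) = Aff H φ.1 (FreeGroup.of x) := by
      apply Aff_congr H φ.1 (hker φ.1 φ.2)
      rw [hs]
      rfl
    rw [h2, Aff_of, act_zero, add_zero] at h1
    exact h1
  have hfin : Module.Finite ℂ (Zp (PresentedGroup (rels : Set (FreeGroup X))) H) :=
    Module.Finite.of_injective (ev H) (ev_inj H)
  have h1 : Module.finrank ℂ (LinearMap.ker D) ≤
      Module.finrank ℂ (Zp (PresentedGroup (rels : Set (FreeGroup X))) H) :=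
    LinearMap.finrank_le_finrank_of_injective hF
  have h2 := LinearMap.finrank_range_add_finrank_ker D
  have h3 : Module.finrank ℂ (LinearMap.range D) ≤ Module.finrank ℂ (rels → Mm H) :=
    Submodule.finrank_le _
  have h4 : Module.finrank ℂ (rels → Mm H) = rels.card * H.index := by
    rw [Module.finrank_pi_fintype, Finset.sum_const, Finset.card_univ,
      Module.finrank_fintype_fun_eq_card, smul_eq_mul, Subgroup.index, Nat.card_eq_fintype_card,
      Fintype.card_coe]
  have h5 : Module.finrank ℂ (X → Mm H) = Fintype.card X * H.index := by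
    rw [Module.finrank_pi_fintype, Finset.sum_const, Finset.card_univ,
      Module.finrank_fintype_fun_eq_card, smul_eq_mul, Subgroup.index, Nat.card_eq_fintype_card]
  rw [h5] at h2
  rw [h4] at h3
  omega

end Pool.Agent.R690.GPZD
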